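import Mathlib

/-!
# An inequality for renewal sequences

For a renewal sequence `p` with first-step mass `g 0` one has
`g 0 * p (s + u) ≤ exp (p s - 1)` for all `s, u ≥ 0`.
Sequences are indexed by the integers and vanish on the negative ones; `N` is a finite horizon.
-/

namespace Pool.Agent.MP5fed26

open Finset

/-- Renewal data up to the horizon `N`: `g k` is the mass of the step `k + 1`. -/
structure Ren (N : ℕ) (g : ℕ → ℝ) (p : ℤ → ℝ) : Prop where
  g_nonneg : ∀ k, 0 ≤ g k
  sum_le : ∑ k ∈ range N, g k ≤ 1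
  p_neg : ∀ z, z < 0 → p z = 0
  p_zero : p 0 = 1
  p_rec : ∀ z : ℤ, z ≠ 0 → z ≤ N → p z = ∑ k ∈ range N, g k * p (z - 1 - k)

lemma ind {N : ℕ} {P : ℤ → Prop} (h0 : ∀ z < 0, P z)
    (h : ∀ z, 0 ≤ z → z ≤ (N : ℤ) → (∀ y < z, P y) → P z) : ∀ z ≤ (N : ℤ), P z := by
  have key : ∀ n : ℕ, ∀ z : ℤ, z < n → z ≤ (N : ℤ) → P z := by
    intro n
    induction n with
    | zero => intro z hz _; exact h0 z (by simpa using hz)
    | succ n ih =>
      intro z hz hzN
      rcases lt_or_ge z 0 with h' | h'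
      · exact h0 z h'
      · refine h z h' hzN (fun y hy => ih y ?_ (by omega))
        push_cast at hz
        omega
  intro z hz
  exact key (N + 1) z (by push_cast; omega) hz

variable {N : ℕ} {g : ℕ → ℝ} {p : ℤ → ℝ}

/-- The operator `A x z = x z - ∑ g k x (z - 1 - k)`. -/
noncomputable def opA (N : ℕ) (g : ℕ → ℝ) (x : ℤ → ℝ) (z : ℤ) : ℝ :=
  x z - ∑ k ∈ range N, g k * x (z - 1 - k)

lemma nonneg_of_opA (hg : ∀ k, 0 ≤ g k) (x : ℤ → ℝ) (hx : ∀ z < 0, 0 ≤ x z)
    (hA : ∀ z, 0 ≤ z → z ≤ (N : ℤ) → 0 ≤ opA N g x z) : ∀ z ≤ (N : ℤ), 0 ≤ x z := by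
  refine ind hx ?_
  intro z hz hzN ih
  have h1 := hA z hz hzN
  have h2 : 0 ≤ ∑ k ∈ range N, g k * x (z - 1 - k) :=
    sum_nonneg (fun k _ => mul_nonneg (hg k) (ih _ (by omega)))
  unfold opA at h1
  linarith

namespace Ren

variable (hR : Ren N g p)
include hR

lemma opA_p (z : ℤ) (hz : z ≤ N) : opA N g p z = if z = 0 then 1 else 0 := by
  unfold opA
  split_ifs with h
  · subst h
    rw [hR.p_zero, sum_eq_zero]
    · ring
    · intro k _
      rw [hR.p_neg _ (by omega), mul_zero]
  · rw [hR.p_rec z h hz]; ring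

lemma p_nonneg : ∀ z ≤ (N : ℤ), 0 ≤ p z := by
  refine nonneg_of_opA hR.g_nonneg p (fun z hz => (hR.p_neg z hz).ge) ?_
  intro z _ hzN
  rw [hR.opA_p z hzN]
  split_ifs <;> norm_num

lemma p_le_one : ∀ z ≤ (N : ℤ), p z ≤ 1 := by
  refine ind (fun z hz => by rw [hR.p_neg z hz]; norm_num) ?_
  intro z hz hzN ih
  rcases eq_or_ne z 0 with h | h
  · rw [h, hR.p_zero]
  · rw [hR.p_rec z h hzN]
    calc ∑ k ∈ range N, g k * p (z - 1 - k) ≤ ∑ k ∈ range N, g k * 1 :=
          sum_le_sum (fun k _ => mul_le_mul_of_nonneg_left (ih _ (by omega)) (hR.g_nonneg k))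
      _ ≤ 1 := by simpa using hR.sum_le

/-- Convolution of `p` with weights: `w i` sits at position `i + 1`. -/
lemma opA_conv (w : ℕ → ℝ) (M : ℕ) (z : ℤ) (hz : z ≤ N) :
    opA N g (fun z => ∑ i ∈ range M, w i * p (z - 1 - i)) z
      = ∑ i ∈ range M, w i * (if z - 1 - i = 0 then 1 else 0) := by
  have h1 : ∀ i : ℕ, (if z - 1 - (i : ℤ) = 0 then (1 : ℝ) else 0) = opA N g p (z - 1 - i) := by
    intro i
    rw [hR.opA_p _ (by omega)]
  simp_rw [h1]
  unfold opA
  simp_rw [mul_sub, sum_sub_distrib, mul_sum]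
  congr 1
  rw [sum_comm]
  refine sum_congr rfl (fun i _ => sum_congr rfl (fun k _ => ?_))
  rw [show z - 1 - (k : ℤ) - 1 - i = z - 1 - i - 1 - k by ring]
  ring

end Ren

/-! ### The concave function `Phi` -/

/-- `Phi q = -q log q` for `q ≥ 1/e` and `1/e` for `q ≤ 1/e`. -/
noncomputable def Phi (q : ℝ) : ℝ :=
  if Real.exp (-1) ≤ q then -q * Real.log q else Real.exp (-1)

/-- `max q (1/e)` -/
noncomputable def pb (q : ℝ) : ℝ := max q (Real.exp (-1))

/-- derivative of `Phi` -/
noncomputable def dPhi (q : ℝ) : ℝ := if Real.exp (-1) ≤ q then -(1 + Real.log q) else 0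

lemma Phi_eq (q : ℝ) : Phi q = pb q + dPhi q * q := by
  unfold Phi pb dPhi
  split_ifs with h
  · rw [max_eq_left h]; ring
  · rw [max_eq_right (le_of_not_ge h)]; ring

lemma Phi_one : Phi 1 = 0 := by
  have h : Real.exp (-1) ≤ 1 := Real.exp_le_one_iff.mpr (by norm_num)
  simp [Phi, h]

lemma aux_log {a b : ℝ} (ha : 0 < a) (hb : 0 < b) : b * Real.log a - b * Real.log b ≤ a - b := by
  have h := Real.log_le_sub_one_of_pos (div_pos ha hb)
  rw [Real.log_div ha.ne' hb.ne'] at h
  have h2 := mul_le_mul_of_nonneg_left h hb.le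
  have h3 : b * (a / b - 1) = a - b := by field_simp
  nlinarith

lemma Phi_le (q : ℝ) : Phi q ≤ Real.exp (-1) := by
  unfold Phi
  split_ifs with h
  · have hq : 0 < q := lt_of_lt_of_le (Real.exp_pos _) h
    have := aux_log (Real.exp_pos (-1)) hq
    rw [Real.log_exp] at this
    nlinarith
  · exact le_rfl

lemma Phi_tangent {q q' : ℝ} : Phi q' ≤ pb q + dPhi q * q' := by
  by_cases h : Real.exp (-1) ≤ q
  · have hq : 0 < q := lt_of_lt_of_le (Real.exp_pos _) h
    have hlog : 0 ≤ 1 + Real.log q := by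
      have := Real.log_le_log (Real.exp_pos _) h
      rw [Real.log_exp] at this
      linarith
    have e1 : pb q = q := max_eq_left h
    have e2 : dPhi q = -(1 + Real.log q) := by simp [dPhi, h]
    rw [e1, e2]
    unfold Phi
    split_ifs with h'
    · have hq2 : 0 < q' := lt_of_lt_of_le (Real.exp_pos _) h'
      have := aux_log hq hq2
      nlinarith
    · have h'' : q' ≤ Real.exp (-1) := le_of_not_ge h'
      have := aux_log hq (Real.exp_pos (-1))
      rw [Real.log_exp] at this
      have h3 : (1 + Real.log q) * q' ≤ (1 + Real.log q) * Real.exp (-1) :=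
        mul_le_mul_of_nonneg_left h'' hlog
      nlinarith
  · have e1 : pb q = Real.exp (-1) := max_eq_right (le_of_not_ge h)
    have e2 : dPhi q = 0 := by simp [dPhi, h]
    rw [e1, e2, zero_mul, add_zero]
    exact Phi_le q'

lemma final_bound {m q : ℝ} (hm : 0 ≤ m) :
    m * q + Phi q ≤ Real.exp (m - 1) := by
  unfold Phi
  split_ifs with h
  · have hq : 0 < q := lt_of_lt_of_le (Real.exp_pos _) h
    have := aux_log (Real.exp_pos (m - 1)) hq
    rw [Real.log_exp] at this
    nlinarith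
  · have h' : q ≤ Real.exp (-1) := le_of_not_ge h
    have h1 : m * q ≤ m * Real.exp (-1) := mul_le_mul_of_nonneg_left h' hm
    have h2 : m + 1 ≤ Real.exp m := Real.add_one_le_exp m
    have h3 : Real.exp (m - 1) = Real.exp m * Real.exp (-1) := by
      rw [← Real.exp_add]; ring_nf
    have h4 := mul_le_mul_of_nonneg_right h2 (Real.exp_pos (-1)).le
    rw [h3]
    nlinarith

namespace Ren

variable (hR : Ren N g p)

/-- tail mass after the first `r` steps -/
noncomputable def tail (g : ℕ → ℝ) (r : ℕ) : ℝ := 1 - ∑ k ∈ range r, g k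

include hR

lemma tail_nonneg {r : ℕ} (hr : r ≤ N) : 0 ≤ tail g r := by
  unfold tail
  have : ∑ k ∈ range r, g k ≤ ∑ k ∈ range N, g k :=
    sum_le_sum_of_subset_of_nonneg (range_mono hr) (fun k _ _ => hR.g_nonneg k)
  linarith [hR.sum_le]

omit hR in
lemma sum_ite {n : ℕ} (hn : n < N) :
    ∑ k ∈ range N, g k * (if k ≤ n then (1 : ℝ) else 0) = 1 - tail g (n + 1) := by
  unfold tail
  have h : range (n + 1) = (range N).filter (fun k => k ≤ n) := by
    ext k; simp only [mem_range, mem_filter]; omega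
  rw [h, sum_filter]
  simp

omit hR in
lemma sum_single {n : ℕ} (hn : n < N) (w : ℕ → ℝ) :
    ∑ i ∈ range N, w i * (if ((n : ℤ) + 1) - 1 - i = 0 then (1 : ℝ) else 0) = w n := by
  rw [sum_eq_single n]
  · simp
  · intro b _ hb
    rw [if_neg (by omega), mul_zero]
  · intro h; exact absurd (mem_range.mpr hn) h

/-- Step 1. -/
lemma step1 : ∀ z : ℤ, 0 ≤ z → z ≤ N →
    ∑ i ∈ range N, (tail g (i + 1) * pb (p (i + 1))) * p (z - 1 - i) ≤ Phi (p z) := by
  set w : ℕ → ℝ := fun i => tail g (i + 1) * pb (p (i + 1)) with hw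
  have key := nonneg_of_opA (N := N) hR.g_nonneg
    (fun z => (if z < 0 then 0 else Phi (p z)) - ∑ i ∈ range N, w i * p (z - 1 - i)) ?_ ?_
  · intro z hz hzN
    have := key z hzN
    simp only [if_neg (not_lt.mpr hz)] at this
    linarith
  · intro z hz
    simp only [if_pos hz]
    rw [sum_eq_zero]
    · norm_num
    · intro i _; rw [hR.p_neg _ (by omega), mul_zero]
  · intro z hz hzN
    have e1 : opA N g (fun z => (if z < 0 then 0 else Phi (p z))
        - ∑ i ∈ range N, w i * p (z - 1 - i)) z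
        = opA N g (fun z => if z < 0 then 0 else Phi (p z)) z
          - opA N g (fun z => ∑ i ∈ range N, w i * p (z - 1 - i)) z := by
      simp only [opA, mul_sub, sum_sub_distrib]
      ring
    rw [e1, hR.opA_conv w N z hzN]
    obtain ⟨n, rfl⟩ | rfl : (∃ n : ℕ, z = (n : ℤ) + 1) ∨ z = 0 := by
      rcases eq_or_lt_of_le hz with h | h
      · right; exact h.symm
      · left; exact ⟨(z - 1).toNat, by omega⟩
    · have hn : n < N := by omega
      rw [sum_single hn w]
      have e2 : opA N g (fun z => if z < 0 then 0 else Phi (p z)) ((n : ℤ) + 1)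
          = Phi (p (n + 1)) - ∑ k ∈ range N, g k *
            (if ((n : ℤ) + 1 - 1 - k) < 0 then 0 else Phi (p ((n : ℤ) + 1 - 1 - k))) := by
        simp only [opA]
        rw [if_neg (by omega)]
      rw [e2]
      have e3 : ∑ k ∈ range N, g k *
            (if ((n : ℤ) + 1 - 1 - k) < 0 then 0 else Phi (p ((n : ℤ) + 1 - 1 - k)))
          ≤ ∑ k ∈ range N, (pb (p (n + 1)) * (g k * (if k ≤ n then (1 : ℝ) else 0))
              + dPhi (p (n + 1)) * (g k * p ((n : ℤ) + 1 - 1 - k))) := by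
        refine sum_le_sum (fun k _ => ?_)
        by_cases hk : k ≤ n
        · rw [if_neg (by omega), if_pos hk]
          have := mul_le_mul_of_nonneg_left
            (Phi_tangent (q := p ((n : ℤ) + 1)) (q' := p ((n : ℤ) + 1 - 1 - k))) (hR.g_nonneg k)
          linarith
        · have hz0 : p ((n : ℤ) + 1 - 1 - k) = 0 := hR.p_neg _ (by omega)
          rw [if_pos (by omega), if_neg hk, hz0]
          simp
      rw [sum_add_distrib, ← mul_sum, ← mul_sum, sum_ite (g := g) hn,
        ← hR.p_rec ((n : ℤ) + 1) (by omega) hzN] at e3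
      have e4 := Phi_eq (p ((n : ℤ) + 1))
      have e5 : w n = tail g (n + 1) * pb (p (n + 1)) := rfl
      rw [e5]
      nlinarith
    · have e2 : opA N g (fun z => if z < 0 then 0 else Phi (p z)) 0 = 0 := by
        simp only [opA]
        rw [if_neg (by norm_num), hR.p_zero, Phi_one, sum_eq_zero]
        · ring
        · intro k _; rw [if_pos (by omega), mul_zero]
      rw [e2, sum_eq_zero]
      · norm_num
      · intro i _; rw [if_neg (by omega), mul_zero]

end Ren

/-! ### Step 2: the running maximum of `p * p` -/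

/-- `T n = ∑ j, p (n - j) p j` -/
noncomputable def T (N : ℕ) (p : ℤ → ℝ) (n : ℤ) : ℝ := ∑ j ∈ range (N + 1), p (n - j) * p j

/-- `R σ n = ∑ j, p (n - j) p (σ + j)` -/
noncomputable def R (N : ℕ) (p : ℤ → ℝ) (σ n : ℤ) : ℝ :=
  ∑ j ∈ range (N + 1), p (n - j) * p (σ + j)

/-- running maximum `X z = max (0, max_{0 ≤ j < z} T j)` -/
noncomputable def X (N : ℕ) (p : ℤ → ℝ) (z : ℤ) : ℝ :=
  (range z.toNat).fold max 0 (fun j : ℕ => T N p (j : ℤ))

/-- source of the running maximum -/
noncomputable def fh (N : ℕ) (g : ℕ → ℝ) (p : ℤ → ℝ) (i : ℕ) : ℝ := opA N g (X N p) ((i : ℤ) + 1)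

lemma X_nonpos {z : ℤ} (hz : z ≤ 0) : X N p z = 0 := by
  unfold X
  rw [Int.toNat_of_nonpos hz]
  simp

lemma X_nonneg (z : ℤ) : 0 ≤ X N p z := by
  unfold X
  rw [le_fold_max]
  left; exact le_rfl

lemma X_mono {y z : ℤ} (h : y ≤ z) : X N p y ≤ X N p z := by
  unfold X
  rw [fold_max_le]
  refine ⟨X_nonneg z, fun j hj => ?_⟩
  rw [le_fold_max]
  right
  exact ⟨j, by rw [mem_range] at *; omega, le_rfl⟩

lemma T_le_X {j : ℕ} {z : ℤ} (h : (j : ℤ) < z) : T N p j ≤ X N p z := by
  unfold X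
  rw [le_fold_max]
  right
  exact ⟨j, by rw [mem_range]; omega, le_rfl⟩

/-- shifting a finite sum -/
lemma shift_sum (F : ℕ → ℝ) (hF : ∀ i, N < i → F i = 0) (m : ℕ) :
    ∑ i ∈ range (N + 1), F (m + i) = ∑ i ∈ range (N + 1), (if m ≤ i then F i else 0) := by
  have h1 : ∑ i ∈ range (N + 1), (if m ≤ i then F i else 0) = ∑ i ∈ Ico m (N + 1), F i := by
    rw [← sum_filter]
    congr 1
    ext i; simp only [mem_filter, mem_range, mem_Ico]; omega
  rw [h1, sum_Ico_eq_sum_range]
  symm
  refine sum_subset (range_mono (by omega)) (fun i _ hi => hF _ ?_)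
  rw [mem_range] at hi
  omega

namespace Ren

variable (hR : Ren N g p)
include hR

lemma T_neg {n : ℤ} (hn : n < 0) : T N p n = 0 := by
  unfold T
  refine sum_eq_zero (fun j _ => ?_)
  rw [hR.p_neg _ (by omega), zero_mul]

lemma T_zero_nonneg : 0 ≤ T N p 0 := by
  unfold T
  refine sum_nonneg (fun j hj => ?_)
  rw [mem_range] at hj
  exact mul_nonneg (hR.p_nonneg _ (by omega)) (hR.p_nonneg _ (by omega))

lemma X_attained {z : ℤ} (hz : 0 < z) : ∃ c : ℕ, (c : ℤ) < z ∧ X N p z ≤ T N p c := by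
  have h : X N p z ≤ X N p z := le_rfl
  conv at h => rhs; unfold X
  rw [le_fold_max] at h
  rcases h with h | ⟨c, hc, h⟩
  · exact ⟨0, by simpa using hz, by simpa using h.trans hR.T_zero_nonneg⟩
  · exact ⟨c, by rw [mem_range] at hc; omega, h⟩

lemma T_le_X' {n z : ℤ} (h : n < z) : T N p n ≤ X N p z := by
  rcases lt_or_ge n 0 with h' | h'
  · rw [hR.T_neg h']; exact X_nonneg z
  · obtain ⟨m, rfl⟩ := Int.eq_ofNat_of_zero_le h'
    exact T_le_X h

lemma opA_T {n : ℤ} (hn : n ≤ N) : opA N g (T N p) n = p n := by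
  have h1 : opA N g (T N p) n = ∑ j ∈ range (N + 1), opA N g p (n - j) * p j := by
    unfold opA T
    simp_rw [sub_mul, sum_sub_distrib, mul_sum, sum_mul]
    congr 1
    rw [sum_comm]
    refine sum_congr rfl (fun i _ => sum_congr rfl (fun k _ => ?_))
    rw [show n - 1 - (k : ℤ) - i = n - i - 1 - k by ring]
    ring
  rw [h1]
  have h2 : ∀ j ∈ range (N + 1), opA N g p (n - j) * p j
      = if n - (j : ℤ) = 0 then p n else 0 := by
    intro j _
    rw [hR.opA_p _ (by omega)]
    split_ifs with h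
    · rw [show (j : ℤ) = n by omega, one_mul]
    · rw [zero_mul]
  rw [sum_congr rfl h2]
  rcases lt_or_ge n 0 with h' | h'
  · rw [hR.p_neg n h']; simp
  · obtain ⟨m, rfl⟩ := Int.eq_ofNat_of_zero_le h'
    rw [sum_eq_single m]
    · simp
    · intro b _ hb; rw [if_neg (by omega)]
    · intro h; exact absurd (mem_range.mpr (by omega)) h

lemma R_neg {n : ℤ} (hn : n ≤ N) (m : ℕ) : R N p (-(m : ℤ)) n = T N p (n - m) := by
  have h := shift_sum (N := N) (fun i => p (n - i) * p (-(m : ℤ) + i))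
    (fun i hi => by rw [hR.p_neg _ (by omega), zero_mul]) m
  have h2 : R N p (-(m : ℤ)) n
      = ∑ i ∈ range (N + 1), (if m ≤ i then p (n - i) * p (-(m : ℤ) + i) else 0) := by
    unfold R
    refine sum_congr rfl (fun i _ => ?_)
    split_ifs with hi
    · rfl
    · rw [hR.p_neg (-(m : ℤ) + i) (by omega), mul_zero]
  rw [h2, ← h]
  unfold T
  refine sum_congr rfl (fun i _ => ?_)
  push_cast
  rw [show n - ((m : ℤ) + i) = n - m - i by ring, show -(m : ℤ) + (m + i) = i by ring]

lemma R_le : ∀ σ : ℤ, σ ≤ N → ∀ n : ℤ, n ≤ N → σ + n ≤ N → R N p σ n ≤ X N p (n + 1) := by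
  refine ind ?_ ?_
  · intro σ hσ n hn _
    obtain ⟨m, hm⟩ := Int.eq_ofNat_of_zero_le (show 0 ≤ -σ by omega)
    rw [show σ = -(m : ℤ) by omega, hR.R_neg hn m]
    exact hR.T_le_X' (by omega)
  · intro σ hσ hσN ih n hn hσn
    rcases eq_or_lt_of_le hσ with h0 | h0
    · have : R N p σ n = T N p n := by
        rw [← h0]; unfold R T; simp
      rw [this]
      exact hR.T_le_X' (by omega)
    · have h1 : R N p σ n = ∑ k ∈ range N, g k * R N p (σ - 1 - k) n := by
        unfold R
        simp_rw [mul_sum]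
        rw [sum_comm]
        refine sum_congr rfl (fun j _ => ?_)
        rcases lt_or_ge n j with hj | hj
        · rw [hR.p_neg (n - j) (by omega)]; simp
        · rw [hR.p_rec (σ + j) (by omega) (by omega), mul_sum]
          refine sum_congr rfl (fun k _ => ?_)
          rw [show σ + (j : ℤ) - 1 - k = σ - 1 - k + j by ring]
          ring
      rw [h1]
      calc ∑ k ∈ range N, g k * R N p (σ - 1 - k) n
          ≤ ∑ k ∈ range N, g k * X N p (n + 1) :=
            sum_le_sum (fun k _ => mul_le_mul_of_nonneg_left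
              (ih _ (by omega) n hn (by omega)) (hR.g_nonneg k))
        _ = (∑ k ∈ range N, g k) * X N p (n + 1) := by rw [sum_mul]
        _ ≤ 1 * X N p (n + 1) := mul_le_mul_of_nonneg_right hR.sum_le (X_nonneg _)
        _ = X N p (n + 1) := one_mul _

lemma fh_nonneg (i : ℕ) : 0 ≤ fh N g p i := by
  unfold fh opA
  have h1 : ∑ k ∈ range N, g k * X N p ((i : ℤ) + 1 - 1 - k)
      ≤ ∑ k ∈ range N, g k * X N p ((i : ℤ) + 1) :=
    sum_le_sum (fun k _ => mul_le_mul_of_nonneg_left (X_mono (by omega)) (hR.g_nonneg k))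
  rw [← sum_mul] at h1
  have h2 : (∑ k ∈ range N, g k) * X N p ((i : ℤ) + 1) ≤ 1 * X N p ((i : ℤ) + 1) :=
    mul_le_mul_of_nonneg_right hR.sum_le (X_nonneg _)
  linarith

lemma X_eq : ∀ z : ℤ, z ≤ N → X N p z = ∑ i ∈ range N, fh N g p i * p (z - 1 - i) := by
  have hz0 : ∀ z : ℤ, z < 0 → X N p z = ∑ i ∈ range N, fh N g p i * p (z - 1 - i) := by
    intro z hz
    rw [X_nonpos hz.le, sum_eq_zero]
    intro i _; rw [hR.p_neg _ (by omega), mul_zero]
  refine ind hz0 ?_
  intro z hz hzN ih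
  have h1 : opA N g (X N p) z = opA N g (fun z => ∑ i ∈ range N, fh N g p i * p (z - 1 - i)) z := by
    rw [hR.opA_conv (fh N g p) N z hzN]
    obtain ⟨n, rfl⟩ | rfl : (∃ n : ℕ, z = (n : ℤ) + 1) ∨ z = 0 := by
      rcases eq_or_lt_of_le hz with h | h
      · right; exact h.symm
      · left; exact ⟨(z - 1).toNat, by omega⟩
    · rw [sum_single (by omega) (fh N g p)]; rfl
    · unfold opA
      rw [X_nonpos le_rfl, sum_eq_zero, sum_eq_zero]
      · norm_num
      · intro i _; rw [if_neg (by omega), mul_zero]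
      · intro k _; rw [X_nonpos (by omega), mul_zero]
  unfold opA at h1
  have h2 : ∑ k ∈ range N, g k * X N p (z - 1 - k)
      = ∑ k ∈ range N, g k * ∑ i ∈ range N, fh N g p i * p (z - 1 - k - 1 - i) :=
    sum_congr rfl (fun k _ => by rw [ih _ (by omega)])
  linarith

/-- Step 3. -/
lemma fh_le {n : ℕ} (hn : n < N) : g 0 * fh N g p n ≤ pb (p ((n : ℤ) + 1)) := by
  have hg0 : 0 ≤ g 0 := hR.g_nonneg 0
  have hg01 : g 0 ≤ 1 := by
    have : g 0 ≤ ∑ k ∈ range N, g k :=
      single_le_sum (fun k _ => hR.g_nonneg k) (mem_range.mpr (by omega))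
    exact this.trans hR.sum_le
  have hstep : ∀ m : ℕ, m < N → g 0 * p m ≤ p ((m : ℤ) + 1) := by
    intro m hm
    rw [hR.p_rec ((m : ℤ) + 1) (by omega) (by omega)]
    have h := single_le_sum (f := fun k : ℕ => g k * p ((m : ℤ) + 1 - 1 - k)) (s := range N)
      (fun k _ => mul_nonneg (hR.g_nonneg k) (hR.p_nonneg _ (by omega)))
      (mem_range.mpr (show 0 < N by omega))
    simpa using h
  obtain ⟨c, hc, hXc⟩ := hR.X_attained (z := (n : ℤ) + 1) (by omega)
  rcases eq_or_lt_of_le (show c ≤ n by omega) with hcn | hcn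
  · -- record
    subst hcn
    have h1 : fh N g p c ≤ p c := by
      rw [← hR.opA_T (n := (c : ℤ)) (by omega)]
      unfold fh opA
      have : ∑ k ∈ range N, g k * T N p ((c : ℤ) - 1 - k)
          ≤ ∑ k ∈ range N, g k * X N p ((c : ℤ) + 1 - 1 - k) :=
        sum_le_sum (fun k _ => mul_le_mul_of_nonneg_left (hR.T_le_X' (by omega)) (hR.g_nonneg k))
      linarith
    calc g 0 * fh N g p c ≤ g 0 * p c := mul_le_mul_of_nonneg_left h1 hg0
      _ ≤ p ((c : ℤ) + 1) := hstep c hn
      _ ≤ pb (p ((c : ℤ) + 1)) := le_max_left _ _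
  · -- not a record
    have hX1 : X N p ((n : ℤ) + 1) ≤ X N p ((c : ℤ) + 1) := hXc.trans (T_le_X (by omega))
    have hTc : T N p c ≤ X N p ((c : ℤ) + 1) := T_le_X (by omega)
    have h1 : fh N g p n ≤ T N p c - ∑ k ∈ range N, g k * R N p k ((c : ℤ) - k) := by
      unfold fh opA
      have h2 : ∑ k ∈ range N, g k * R N p k ((c : ℤ) - k)
          ≤ ∑ k ∈ range N, g k * X N p ((n : ℤ) + 1 - 1 - k) := by
        refine sum_le_sum (fun k hk => mul_le_mul_of_nonneg_left ?_ (hR.g_nonneg k))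
        have hk' : k < N := mem_range.mp hk
        calc R N p k ((c : ℤ) - k) ≤ X N p ((c : ℤ) - k + 1) :=
              hR.R_le k (by omega) _ (by omega) (by omega)
          _ ≤ X N p ((n : ℤ) + 1 - 1 - k) := X_mono (by omega)
      linarith
    have h3 : ∀ k ∈ range N, R N p (k : ℤ) ((c : ℤ) - k)
        = ∑ i ∈ range (N + 1), (if k ≤ i then p ((c : ℤ) - i) * p i else 0) := by
      intro k _
      rw [← shift_sum (N := N) (fun i => p ((c : ℤ) - i) * p i)
        (fun i hi => by rw [hR.p_neg _ (by omega), zero_mul]) k]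
      unfold R
      refine sum_congr rfl (fun i _ => ?_)
      push_cast
      rw [show (c : ℤ) - k - i = (c : ℤ) - (k + i) by ring]
    have h4 : T N p c - ∑ k ∈ range N, g k * R N p k ((c : ℤ) - k)
        = ∑ i ∈ range (N + 1), p ((c : ℤ) - i) * p i *
          (1 - ∑ k ∈ range N, g k * (if k ≤ i then (1 : ℝ) else 0)) := by
      rw [sum_congr rfl (fun k hk => by rw [h3 k hk])]
      unfold T
      simp_rw [mul_sub, sum_sub_distrib, mul_sum, mul_one]
      congr 1
      rw [sum_comm]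
      refine sum_congr rfl (fun i _ => sum_congr rfl (fun k _ => ?_))
      split_ifs <;> ring
    have h5 : ∑ i ∈ range (N + 1), p ((c : ℤ) - i) * p i *
          (1 - ∑ k ∈ range N, g k * (if k ≤ i then (1 : ℝ) else 0))
        = ∑ i ∈ range N, p ((c : ℤ) - i) * p i * tail g (i + 1) := by
      rw [sum_range_succ, hR.p_neg ((c : ℤ) - N) (by omega)]
      rw [zero_mul, zero_mul, add_zero]
      refine sum_congr rfl (fun i hi => ?_)
      rw [sum_ite (g := g) (mem_range.mp hi)]
      ring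
    have h6 : g 0 * ∑ i ∈ range N, p ((c : ℤ) - i) * p i * tail g (i + 1)
        ≤ ∑ i ∈ range N, (tail g (i + 1) * pb (p (i + 1))) * p (((c : ℤ) + 1) - 1 - i) := by
      rw [mul_sum]
      refine sum_le_sum (fun i hi => ?_)
      have hi' : i < N := mem_range.mp hi
      have h7 : 0 ≤ p ((c : ℤ) - i) := hR.p_nonneg _ (by omega)
      have h8 : 0 ≤ tail g (i + 1) := hR.tail_nonneg (by omega)
      have h9 : g 0 * p i ≤ pb (p ((i : ℤ) + 1)) := (hstep i hi').trans (le_max_left _ _)
      rw [show (c : ℤ) + 1 - 1 - i = (c : ℤ) - i by ring]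
      have h10 := mul_le_mul_of_nonneg_left h9 (mul_nonneg h7 h8)
      nlinarith
    have h11 := hR.step1 ((c : ℤ) + 1) (by omega) (by omega)
    calc g 0 * fh N g p n ≤ g 0 * ∑ i ∈ range N, p ((c : ℤ) - i) * p i * tail g (i + 1) := by
          rw [← h5, ← h4]
          exact mul_le_mul_of_nonneg_left h1 hg0
      _ ≤ _ := h6
      _ ≤ Phi (p ((c : ℤ) + 1)) := h11
      _ ≤ Real.exp (-1) := Phi_le _
      _ ≤ pb (p ((n : ℤ) + 1)) := le_max_right _ _

end Ren

/-! ### Step 4: splitting at `s` -/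

/-- auxiliary difference for one jump size -/
noncomputable def Dk (N : ℕ) (g : ℕ → ℝ) (p : ℤ → ℝ) (s : ℤ) (k : ℕ) (u : ℤ) : ℝ :=
  ∑ i ∈ range N, (if i < k then fh N g p i - p (s + i - k) else 0) * p (u - 1 - i)

namespace Ren

variable (hR : Ren N g p)
include hR

lemma Dk_nonneg (s : ℤ) (k : ℕ) :
    ∀ u : ℤ, u ≤ N → s + u ≤ N → 0 ≤ Dk N g p s k u := by
  refine ind ?_ ?_
  · intro u hu _
    unfold Dk
    rw [sum_eq_zero]
    intro i _; rw [hR.p_neg (u - 1 - (i : ℤ)) (by omega), mul_zero]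
  · intro u hu huN ih hsu
    rcases le_or_gt u k with huk | huk
    · have h1 : Dk N g p s k u = X N p u - R N p (s - k) (u - 1) := by
        have h2 : R N p (s - k) (u - 1)
            = ∑ i ∈ range N, p (s + i - k) * p (u - 1 - i) := by
          unfold R
          rw [sum_range_succ, hR.p_neg (u - 1 - (N : ℤ)) (by omega), zero_mul, add_zero]
          refine sum_congr rfl (fun i _ => ?_)
          rw [show s - (k : ℤ) + i = s + i - k by ring]
          ring
        rw [h2, hR.X_eq u huN, ← sum_sub_distrib]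
        unfold Dk
        refine sum_congr rfl (fun i _ => ?_)
        split_ifs with hi
        · ring
        · rw [hR.p_neg (u - 1 - (i : ℤ)) (by omega)]; ring
      rw [h1]
      have h3 := hR.R_le (s - k) (by omega) (u - 1) (by omega) (by omega)
      rw [show u - 1 + 1 = u by ring] at h3
      linarith
    · have h1 : opA N g (Dk N g p s k) u = 0 := by
        have h2 := hR.opA_conv (fun i => if i < k then fh N g p i - p (s + i - k) else 0) N u huN
        unfold Dk
        rw [h2]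
        refine sum_eq_zero (fun i _ => ?_)
        by_cases hi : i < k
        · rw [if_neg (show ¬ (u - 1 - (i : ℤ) = 0) by omega), mul_zero]
        · rw [if_neg hi, zero_mul]
      unfold opA at h1
      have h2 : 0 ≤ ∑ j ∈ range N, g j * Dk N g p s k (u - 1 - j) :=
        sum_nonneg (fun j _ => mul_nonneg (hR.g_nonneg j) (ih _ (by omega) (by omega)))
      linarith

/-- decomposition of `p (s + u)` at `u` -/
lemma split {s : ℤ} (hs : 0 ≤ s) : ∀ u : ℤ, u ≤ N → s + u ≤ N →
    (if u < 0 then 0 else p (s + u)) = p s * p u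
      + ∑ i ∈ range N, (∑ k ∈ range N, if i < k then g k * p (s + i - k) else 0)
        * p (u - 1 - i) := by
  set v : ℕ → ℝ := fun i => ∑ k ∈ range N, if i < k then g k * p (s + i - k) else 0 with hv
  refine ind ?_ ?_
  · intro u hu _
    rw [if_pos hu, hR.p_neg u hu, mul_zero, zero_add, sum_eq_zero]
    intro i _; rw [hR.p_neg _ (by omega), mul_zero]
  · intro u hu huN ih hsu
    rw [if_neg (not_lt.mpr hu)]
    obtain ⟨n, rfl⟩ | rfl : (∃ n : ℕ, u = (n : ℤ) + 1) ∨ u = 0 := by
      rcases eq_or_lt_of_le hu with h | h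
      · right; exact h.symm
      · left; exact ⟨(u - 1).toNat, by omega⟩
    · have h1 := hR.opA_conv v N ((n : ℤ) + 1) huN
      rw [sum_single (by omega) v] at h1
      have h2 := hR.opA_p ((n : ℤ) + 1) huN
      rw [if_neg (by omega)] at h2
      unfold opA at h1 h2
      have h3 : p (s + ((n : ℤ) + 1)) = ∑ k ∈ range N, g k *
            (if ((n : ℤ) + 1 - 1 - k) < 0 then 0 else p (s + ((n : ℤ) + 1 - 1 - k))) + v n := by
        rw [hR.p_rec _ (by omega) hsu, hv, ← sum_add_distrib]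
        refine sum_congr rfl (fun k _ => ?_)
        by_cases hk : n < k
        · rw [if_pos (by omega), if_pos hk, show s + ((n : ℤ) + 1) - 1 - k = s + n - k by ring]
          ring
        · rw [if_neg (by omega), if_neg hk,
            show s + ((n : ℤ) + 1) - 1 - k = s + ((n : ℤ) + 1 - 1 - k) by ring]
          ring
      have h4 : ∑ k ∈ range N, g k *
            (if ((n : ℤ) + 1 - 1 - k) < 0 then 0 else p (s + ((n : ℤ) + 1 - 1 - k)))
          = ∑ k ∈ range N, (p s * (g k * p ((n : ℤ) + 1 - 1 - k))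
            + g k * ∑ i ∈ range N, v i * p ((n : ℤ) + 1 - 1 - k - 1 - i)) := by
        refine sum_congr rfl (fun k _ => ?_)
        rw [ih _ (by omega) (by omega)]
        ring
      rw [sum_add_distrib, ← mul_sum] at h4
      rw [h3, h4]
      have h5 : p ((n : ℤ) + 1) = ∑ k ∈ range N, g k * p ((n : ℤ) + 1 - 1 - k) := by linarith
      have h6 : ∑ i ∈ range N, v i * p ((n : ℤ) + 1 - 1 - i)
          = v n + ∑ k ∈ range N, g k * ∑ i ∈ range N, v i * p ((n : ℤ) + 1 - 1 - k - 1 - i) := by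
        linarith
      rw [h6, ← h5]
      ring
    · rw [add_zero, hR.p_zero, mul_one, sum_eq_zero, add_zero]
      intro i _; rw [hR.p_neg _ (by omega), mul_zero]

lemma sum_gt_le {i : ℕ} (hi : i < N) :
    ∑ k ∈ range N, g k * (if i < k then (1 : ℝ) else 0) ≤ tail g (i + 1) := by
  have h1 := sum_ite (g := g) hi
  have h2 : ∑ k ∈ range N, g k * (if i < k then (1 : ℝ) else 0)
      + ∑ k ∈ range N, g k * (if k ≤ i then (1 : ℝ) else 0) = ∑ k ∈ range N, g k := by
    rw [← sum_add_distrib]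
    refine sum_congr rfl (fun k _ => ?_)
    by_cases hk : i < k
    · rw [if_pos hk, if_neg (by omega)]; ring
    · rw [if_neg hk, if_pos (by omega)]; ring
  linarith [hR.sum_le]

/-- The refined inequality. -/
theorem main' {s u : ℤ} (hs : 0 ≤ s) (hu : 0 ≤ u) (hsu : s + u ≤ N) :
    g 0 * p (s + u) ≤ g 0 * (p s * p u) + Phi (p u) := by
  have h0 := hR.split hs u (by omega) hsu
  rw [if_neg (not_lt.mpr hu)] at h0
  have h1 : ∑ i ∈ range N, (∑ k ∈ range N, if i < k then g k * p (s + i - k) else 0)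
        * p (u - 1 - i)
      ≤ ∑ i ∈ range N, fh N g p i * tail g (i + 1) * p (u - 1 - i) := by
    have h2 : 0 ≤ ∑ k ∈ range N, g k * Dk N g p s k u :=
      sum_nonneg (fun k _ => mul_nonneg (hR.g_nonneg k) (hR.Dk_nonneg s k u (by omega) hsu))
    have h3 : ∑ k ∈ range N, g k * Dk N g p s k u
        = ∑ i ∈ range N, (fh N g p i * (∑ k ∈ range N, g k * (if i < k then (1 : ℝ) else 0)))
            * p (u - 1 - i)
          - ∑ i ∈ range N, (∑ k ∈ range N, if i < k then g k * p (s + i - k) else 0)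
            * p (u - 1 - i) := by
      unfold Dk
      simp_rw [mul_sum, sum_mul]
      rw [sum_comm, ← sum_sub_distrib]
      refine sum_congr rfl (fun i _ => ?_)
      rw [← sum_sub_distrib]
      refine sum_congr rfl (fun k _ => ?_)
      split_ifs <;> ring
    have h4 : ∑ i ∈ range N, (fh N g p i * (∑ k ∈ range N, g k * (if i < k then (1 : ℝ) else 0)))
            * p (u - 1 - i)
        ≤ ∑ i ∈ range N, fh N g p i * tail g (i + 1) * p (u - 1 - i) := by
      refine sum_le_sum (fun i hi => ?_)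
      exact mul_le_mul_of_nonneg_right
        (mul_le_mul_of_nonneg_left (hR.sum_gt_le (mem_range.mp hi)) (hR.fh_nonneg i))
        (hR.p_nonneg _ (by omega))
    linarith
  have h5 : g 0 * ∑ i ∈ range N, fh N g p i * tail g (i + 1) * p (u - 1 - i) ≤ Phi (p u) := by
    refine le_trans ?_ (hR.step1 u hu (by omega))
    rw [mul_sum]
    refine sum_le_sum (fun i hi => ?_)
    have hi' : i < N := mem_range.mp hi
    have h7 : 0 ≤ p (u - 1 - i) := hR.p_nonneg _ (by omega)
    have h8 : 0 ≤ tail g (i + 1) := hR.tail_nonneg (by omega)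
    have h10 := mul_le_mul_of_nonneg_left (hR.fh_le hi') (mul_nonneg h7 h8)
    nlinarith
  have h6 := mul_le_mul_of_nonneg_left h1 (hR.g_nonneg 0)
  rw [h0]
  linarith

/-- The renewal inequality `u_1 u_{s+u} ≤ exp (u_s - 1)`. -/
theorem main (hN : 0 < N) {s u : ℤ} (hs : 0 ≤ s) (hu : 0 ≤ u) (hsu : s + u ≤ N) :
    g 0 * p (s + u) ≤ Real.exp (p s - 1) := by
  have hg01 : g 0 ≤ 1 := by
    have : g 0 ≤ ∑ k ∈ range N, g k :=
      single_le_sum (fun k _ => hR.g_nonneg k) (mem_range.mpr hN)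
    exact this.trans hR.sum_le
  have h1 := hR.main' hs hu hsu
  have hps : 0 ≤ p s := hR.p_nonneg s (by omega)
  have hpu : 0 ≤ p u := hR.p_nonneg u (by omega)
  have h2 : g 0 * (p s * p u) ≤ p s * p u := by
    have := mul_le_mul_of_nonneg_right hg01 (mul_nonneg hps hpu)
    linarith
  have h3 := final_bound (q := p u) hps
  linarith

end Ren

end Pool.Agent.MP5fed26
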