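import Mathlib

/-!
# The regenerative phenomenon with exponential holding times and constant gaps
-/

namespace Pool.Agent.MP5fed26

open MeasureTheory Set Filter Topology
open scoped NNReal ENNReal

/-- the exponential law of rate one -/
noncomputable def nu : Measure ℝ :=
  (volume.restrict (Ioi 0)).withDensity (fun x => ENNReal.ofReal (Real.exp (-x)))

lemma meas_dens : Measurable (fun x : ℝ => ENNReal.ofReal (Real.exp (-x))) := by fun_prop

instance nu_prob : IsProbabilityMeasure nu := by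
  constructor
  unfold nu
  rw [withDensity_apply _ MeasurableSet.univ, Measure.restrict_univ,
    ← ofReal_integral_eq_lintegral_ofReal]
  · rw [integral_exp_neg_Ioi_zero]; simp
  · exact (integrableOn_exp_neg_Ioi 0)
  · exact Filter.Eventually.of_forall (fun x => (Real.exp_pos _).le)

lemma lintegral_nu {f : ℝ → ℝ≥0∞} (hf : Measurable f) :
    ∫⁻ x, f x ∂nu = ∫⁻ x in Ioi 0, ENNReal.ofReal (Real.exp (-x)) * f x := by
  unfold nu
  rw [lintegral_withDensity_eq_lintegral_mul _ meas_dens hf]
  rfl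

/-- sample space measure -/
noncomputable def Pm : Measure (ℕ → ℝ) := Measure.infinitePi (fun _ : ℕ => nu)

instance Pm_prob : IsProbabilityMeasure Pm := by unfold Pm; infer_instance

/-- prepend a value -/
def cns (z : ℝ × (ℕ → ℝ)) : ℕ → ℝ := fun n => Nat.casesOn n z.1 z.2

@[simp] lemma cns_zero (z : ℝ × (ℕ → ℝ)) : cns z 0 = z.1 := rfl
@[simp] lemma cns_succ (z : ℝ × (ℕ → ℝ)) (n : ℕ) : cns z (n + 1) = z.2 n := rfl

lemma measurable_cns : Measurable cns := by
  rw [measurable_pi_iff]
  intro n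
  cases n with
  | zero => exact measurable_fst
  | succ n => exact (measurable_pi_apply n).comp measurable_snd

lemma map_cns : (nu.prod Pm).map cns = Pm := by
  conv_rhs => unfold Pm
  apply Measure.eq_infinitePi
  intro s t ht
  classical
  obtain ⟨N, hN⟩ : ∃ N, s ⊆ Finset.range (N + 1) := by
    refine ⟨s.sup id, fun i hi => Finset.mem_range.mpr ?_⟩
    have : i ≤ s.sup id := Finset.le_sup (f := id) hi
    omega
  set t' : ℕ → Set ℝ := fun i => if i ∈ s then t i else Set.univ with ht'
  have hmt' : ∀ i, MeasurableSet (t' i) := by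
    intro i
    simp only [ht']
    split_ifs
    · exact ht i
    · exact MeasurableSet.univ
  have e1 : (Set.pi (s : Set ℕ) t : Set (ℕ → ℝ)) = Set.pi (Finset.range (N + 1) : Set ℕ) t' := by
    ext ω
    simp only [Set.mem_pi, Finset.mem_coe, ht']
    constructor
    · intro h i _
      split_ifs with hi
      · exact h i hi
      · trivial
    · intro h i hi
      have := h i (hN hi)
      rwa [if_pos hi] at this
  have e2 : ∏ i ∈ s, nu (t i) = ∏ i ∈ Finset.range (N + 1), nu (t' i) := by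
    have h1 : ∏ i ∈ s, nu (t i) = ∏ i ∈ s, nu (t' i) :=
      Finset.prod_congr rfl (fun i hi => by simp [ht', hi])
    rw [h1]
    refine Finset.prod_subset hN (fun i _ hi => ?_)
    simp [ht', hi]
  rw [e1, e2, Measure.map_apply measurable_cns
    (MeasurableSet.pi (Finset.countable_toSet _) (fun i _ => hmt' i))]
  have e3 : cns ⁻¹' (Set.pi (Finset.range (N + 1) : Set ℕ) t')
      = (t' 0) ×ˢ (Set.pi (Finset.range N : Set ℕ) (fun i => t' (i + 1))) := by
    ext z
    simp only [Set.mem_preimage, Set.mem_pi, Finset.coe_range, Set.mem_Iio, Set.mem_prod]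
    constructor
    · intro h
      exact ⟨h 0 (by omega), fun i hi => h (i + 1) (by omega)⟩
    · rintro ⟨h0, h1⟩ i hi
      cases i with
      | zero => exact h0
      | succ i => exact h1 i (by omega)
  rw [e3, Measure.prod_prod]
  unfold Pm
  rw [Measure.infinitePi_pi _ (fun i _ => hmt' (i + 1)), Finset.prod_range_succ', mul_comm]

/-- time of the start of the `n`-th holding interval -/
noncomputable def S (d : ℝ) (ω : ℕ → ℝ) (n : ℕ) : ℝ := ∑ i ∈ Finset.range n, (max (ω i) 0 + d)

/-- the event that `t` lies in a holding interval -/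
def Ev (d t : ℝ) : Set (ℕ → ℝ) := {ω | ∃ n, S d ω n ≤ t ∧ t < S d ω n + max (ω n) 0}

lemma measurable_S (d : ℝ) (n : ℕ) : Measurable (fun ω => S d ω n) := by
  unfold S
  refine Finset.measurable_sum _ (fun i _ => ?_)
  exact ((measurable_pi_apply i).max measurable_const).add measurable_const

lemma measurableSet_Ev (d t : ℝ) : MeasurableSet (Ev d t) := by
  have : Ev d t = ⋃ n, ({ω | S d ω n ≤ t} ∩ {ω | t < S d ω n + max (ω n) 0}) := by
    ext ω; simp [Ev]
  rw [this]
  refine MeasurableSet.iUnion (fun n => ?_)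
  refine (measurableSet_le (measurable_S d n) measurable_const).inter
    (measurableSet_lt measurable_const ((measurable_S d n).add
      ((measurable_pi_apply n).max measurable_const)))

lemma S_nonneg {d : ℝ} (hd : 0 ≤ d) (ω : ℕ → ℝ) (n : ℕ) : 0 ≤ S d ω n :=
  Finset.sum_nonneg (fun _ _ => add_nonneg (le_max_right _ _) hd)

lemma Ev_neg {d t : ℝ} (hd : 0 ≤ d) (ht : t < 0) : Ev d t = ∅ := by
  ext ω
  simp only [Ev, Set.mem_ofPred_eq, Set.mem_empty_iff_false, iff_false, not_exists, not_and]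
  intro n hn
  have := S_nonneg hd ω n
  linarith

lemma S_cns (d : ℝ) (z : ℝ × (ℕ → ℝ)) (n : ℕ) :
    S d (cns z) (n + 1) = S d z.2 n + (max z.1 0 + d) := by
  unfold S
  rw [Finset.sum_range_succ']
  simp

lemma mem_cns {d t : ℝ} (z : ℝ × (ℕ → ℝ)) :
    cns z ∈ Ev d t ↔ (0 ≤ t ∧ t < max z.1 0) ∨ z.2 ∈ Ev d (t - max z.1 0 - d) := by
  simp only [Ev, Set.mem_ofPred_eq]
  constructor
  · rintro ⟨n, h1, h2⟩
    cases n with
    | zero =>
      left
      simp only [S, Finset.range_zero, Finset.sum_empty, cns_zero, zero_add] at h1 h2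
      exact ⟨h1, h2⟩
    | succ n =>
      right
      rw [S_cns] at h1 h2
      rw [cns_succ] at h2
      exact ⟨n, by linarith, by linarith⟩
  · rintro (⟨h1, h2⟩ | ⟨n, h1, h2⟩)
    · exact ⟨0, by simpa [S] using h1, by simpa [S] using h2⟩
    · refine ⟨n + 1, ?_, ?_⟩
      · rw [S_cns]; linarith
      · rw [S_cns, cns_succ]; linarith

lemma Pm_slice {A : Set (ℕ → ℝ)} (hA : MeasurableSet A) :
    Pm A = ∫⁻ x, Pm {ω | cns (x, ω) ∈ A} ∂nu := by
  conv_lhs => rw [← map_cns]
  rw [Measure.map_apply measurable_cns hA, Measure.prod_apply (measurable_cns hA)]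
  rfl

lemma measurable_slice {A : Set (ℕ → ℝ)} (hA : MeasurableSet A) :
    Measurable (fun x : ℝ => Pm {ω | cns (x, ω) ∈ A}) :=
  measurable_measure_prodMk_left (measurable_cns hA)

/-- the renewal decomposition -/
lemma renew {d : ℝ} {m : ℕ} (t : Fin (m + 1) → ℝ) (ht : Monotone t) (h0 : 0 ≤ t 0) :
    Pm (⋂ i, Ev d (t i))
      = (∫⁻ x in Ioc 0 (t 0), ENNReal.ofReal (Real.exp (-x)) * Pm (⋂ i, Ev d (t i - x - d)))
        + ENNReal.ofReal (Real.exp (-(t 0))) * Pm (⋂ i : Fin m, Ev d (t i.succ - t 0)) := by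
  have hA : MeasurableSet (⋂ i, Ev d (t i)) :=
    MeasurableSet.iInter (fun i => measurableSet_Ev d _)
  have hB : MeasurableSet (⋂ i : Fin m, Ev d (t i.succ - t 0)) :=
    MeasurableSet.iInter (fun i => measurableSet_Ev d _)
  rw [Pm_slice hA, lintegral_nu (measurable_slice hA), ← Ioc_union_Ioi_eq_Ioi h0,
    lintegral_union measurableSet_Ioi (by
      rw [Set.disjoint_left]; intro x h1 h2; exact absurd h1.2 (not_le.mpr h2))]
  congr 1
  · refine setLIntegral_congr_fun measurableSet_Ioc (fun x hx => ?_)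
    have e : {ω | cns (x, ω) ∈ ⋂ i, Ev d (t i)} = ⋂ i, Ev d (t i - x - d) := by
      ext ω
      simp only [Set.mem_ofPred_eq, Set.mem_iInter]
      refine forall_congr' (fun i => ?_)
      rw [mem_cns, max_eq_left hx.1.le]
      have h1 : x ≤ t i := hx.2.trans (ht (Fin.zero_le i))
      constructor
      · rintro (h | h)
        · exact absurd h.2 (not_lt.mpr h1)
        · exact h
      · intro h; exact Or.inr h
    simp only [e]
  · have hmp : MeasurePreserving (fun y : ℝ => y + t 0) volume volume :=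
      measurePreserving_add_right volume (t 0)
    have hpre : (fun y : ℝ => y + t 0) ⁻¹' (Ioi (t 0)) = Ioi 0 := by
      ext y; simp
    have hF : Measurable (fun x : ℝ => ENNReal.ofReal (Real.exp (-x))
        * Pm {ω | cns (x, ω) ∈ ⋂ i, Ev d (t i)}) := meas_dens.mul (measurable_slice hA)
    have e1 := hmp.setLIntegral_comp_preimage (s := Ioi (t 0)) measurableSet_Ioi hF
    rw [hpre] at e1
    have hG : Measurable (fun x : ℝ => ENNReal.ofReal (Real.exp (-x))
        * Pm {ω | cns (x, ω) ∈ ⋂ i : Fin m, Ev d (t i.succ - t 0)}) :=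
      meas_dens.mul (measurable_slice hB)
    rw [← e1, Pm_slice hB, lintegral_nu (measurable_slice hB),
      ← lintegral_const_mul _ hG]
    refine setLIntegral_congr_fun measurableSet_Ioi (fun y hy => ?_)
    have hy' : 0 < y := hy
    have e : {ω | cns (y + t 0, ω) ∈ ⋂ i, Ev d (t i)}
        = {ω | cns (y, ω) ∈ ⋂ i : Fin m, Ev d (t i.succ - t 0)} := by
      ext ω
      simp only [Set.mem_ofPred_eq, Set.mem_iInter]
      rw [Fin.forall_fin_succ]
      have hz : cns (y + t 0, ω) ∈ Ev d (t 0) := by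
        rw [mem_cns, max_eq_left (by linarith)]
        left; exact ⟨h0, by linarith⟩
      constructor
      · rintro ⟨_, h⟩ i
        have h1 := h i
        rw [mem_cns, max_eq_left (by linarith)] at h1
        rw [mem_cns, max_eq_left hy'.le]
        have h2 : t 0 ≤ t i.succ := ht (Fin.zero_le _)
        rcases h1 with h1 | h1
        · left; exact ⟨by linarith, by linarith [h1.2]⟩
        · right; convert h1 using 2; ring
      · intro h
        refine ⟨hz, fun i => ?_⟩
        have h1 := h i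
        rw [mem_cns, max_eq_left hy'.le] at h1
        rw [mem_cns, max_eq_left (by linarith)]
        have h2 : t 0 ≤ t i.succ := ht (Fin.zero_le _)
        rcases h1 with h1 | h1
        · left; exact ⟨by linarith, by linarith [h1.2]⟩
        · right; convert h1 using 2; ring
    simp only [e]
    rw [← mul_assoc, ← ENNReal.ofReal_mul (Real.exp_pos _).le, ← Real.exp_add]
    congr 3
    ring

lemma iInter_fin1 (d : ℝ) (t : Fin 1 → ℝ) : (⋂ i, Ev d (t i)) = Ev d (t 0) := by
  ext ω
  simp only [Set.mem_iInter]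
  constructor
  · intro h; exact h 0
  · intro h i; fin_cases i; exact h

lemma renew_one (d t : ℝ) (h0 : 0 ≤ t) :
    Pm (Ev d t)
      = (∫⁻ x in Ioc 0 t, ENNReal.ofReal (Real.exp (-x)) * Pm (Ev d (t - x - d)))
        + ENNReal.ofReal (Real.exp (-t)) := by
  have h := renew (d := d) (m := 0) (fun _ => t) monotone_const h0
  simp only [Set.iInter_const] at h
  rw [h]
  simp

/-- the regenerative property -/
lemma regen {d : ℝ} (hd : 0 < d) (N : ℕ) : ∀ (m : ℕ) (t : Fin (m + 1) → ℝ), Monotone t →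
    0 ≤ t 0 → t 0 < N * d →
    Pm (⋂ i, Ev d (t i)) = Pm (Ev d (t 0)) * Pm (⋂ i : Fin m, Ev d (t i.succ - t 0)) := by
  induction N with
  | zero => intro m t _ h0 h1; simp at h1; linarith
  | succ N ih =>
    intro m t ht h0 h1
    rw [renew t ht h0, renew_one d (t 0) h0, add_mul]
    congr 1
    rw [← lintegral_mul_const' _ _ (measure_ne_top _ _)]
    refine setLIntegral_congr_fun measurableSet_Ioc (fun x hx => ?_)
    rw [mul_assoc]
    congr 1
    rcases lt_or_ge (t 0 - x - d) 0 with hneg | hpos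
    · have e1 : Ev d (t 0 - x - d) = ∅ := Ev_neg hd.le hneg
      have e2 : (⋂ i, Ev d (t i - x - d)) = ∅ := by
        rw [Set.eq_empty_iff_forall_notMem]
        intro ω hω
        have := Set.mem_iInter.mp hω 0
        rw [e1] at this
        exact this
      rw [e1, e2]; simp
    · have h2 := ih m (fun i => t i - x - d)
        (fun i j hij => by have := ht hij; simp only; linarith) hpos
        (by push_cast at h1; have := hx.1; linarith)
      rw [h2]
      congr 4
      funext i
      ring_nf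

lemma q_small {d t : ℝ} (hd : 0 < d) (h0 : 0 ≤ t) (h1 : t ≤ d) :
    Pm (Ev d t) = ENNReal.ofReal (Real.exp (-t)) := by
  rw [renew_one d t h0]
  have : (∫⁻ x in Ioc 0 t, ENNReal.ofReal (Real.exp (-x)) * Pm (Ev d (t - x - d)))
      = ∫⁻ _ in Ioc 0 t, (0 : ℝ≥0∞) := by
    refine setLIntegral_congr_fun measurableSet_Ioc (fun x hx => ?_)
    have hneg : t - x - d < 0 := by linarith [hx.1]
    have e1 : Ev d (t - x - d) = ∅ := Ev_neg hd.le hneg
    rw [e1]; simp
  rw [this]
  simp

lemma q_mid {d t : ℝ} (hd : 0 < d) (h0 : d ≤ t) (h1 : t ≤ 2 * d) :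
    Pm (Ev d t) = ENNReal.ofReal ((t - d) * Real.exp (-(t - d)) + Real.exp (-t)) := by
  rw [renew_one d t (hd.le.trans h0)]
  have hsplit : Ioc 0 t = Ioc 0 (t - d) ∪ Ioc (t - d) t :=
    (Ioc_union_Ioc_eq_Ioc (by linarith) (by linarith)).symm
  rw [hsplit, lintegral_union measurableSet_Ioc (by
      rw [Set.disjoint_left]; intro x h1 h2; exact absurd h1.2 (not_le.mpr h2.1))]
  have e2 : (∫⁻ x in Ioc (t - d) t, ENNReal.ofReal (Real.exp (-x)) * Pm (Ev d (t - x - d)))
      = ∫⁻ _ in Ioc (t - d) t, (0 : ℝ≥0∞) := by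
    refine setLIntegral_congr_fun measurableSet_Ioc (fun x hx => ?_)
    have hneg : t - x - d < 0 := by linarith [hx.1]
    have e1 : Ev d (t - x - d) = ∅ := Ev_neg hd.le hneg
    rw [e1]; simp
  have e3 : (∫⁻ x in Ioc 0 (t - d), ENNReal.ofReal (Real.exp (-x)) * Pm (Ev d (t - x - d)))
      = ∫⁻ _ in Ioc 0 (t - d), ENNReal.ofReal (Real.exp (-(t - d))) := by
    refine setLIntegral_congr_fun measurableSet_Ioc (fun x hx => ?_)
    rw [q_small hd (by linarith [hx.2]) (by linarith [hx.1]),
      ← ENNReal.ofReal_mul (Real.exp_pos _).le, ← Real.exp_add]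
    congr 2
    ring
  rw [e2, e3, setLIntegral_const, Real.volume_Ioc]
  simp only [lintegral_const, zero_mul, add_zero, sub_zero]
  rw [← ENNReal.ofReal_mul (Real.exp_pos _).le,
    ← ENNReal.ofReal_add (mul_nonneg (Real.exp_pos _).le (by linarith)) (Real.exp_pos _).le]
  congr 1
  ring

/-- the example p-function with time scale `a` -/
noncomputable def pex (d a : ℝ) (x : ℝ≥0) : ℝ := Pm.real (Ev d (a * x))

lemma pex_small {d a : ℝ} (hd : 0 < d) (ha : 0 ≤ a) (x : ℝ≥0) (h : a * x ≤ d) :
    pex d a x = Real.exp (-(a * x)) := by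
  unfold pex Measure.real
  rw [q_small hd (by positivity) h, ENNReal.toReal_ofReal (Real.exp_pos _).le]

lemma pex_mid {d a : ℝ} (hd : 0 < d) (x : ℝ≥0) (h : d ≤ a * x) (h' : a * x ≤ 2 * d) :
    pex d a x = (a * x - d) * Real.exp (-(a * x - d)) + Real.exp (-(a * x)) := by
  unfold pex Measure.real
  rw [q_mid hd h h', ENNReal.toReal_ofReal]
  have := Real.exp_pos (-(a * x - d))
  have := Real.exp_pos (-(a * (x : ℝ)))
  have h1 : 0 ≤ (a * (x : ℝ) - d) := by linarith
  positivity

lemma pex_zero {d a : ℝ} (hd : 0 < d) (ha : 0 ≤ a) : pex d a 0 = 1 := by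
  rw [pex_small hd ha 0 (by simpa using hd.le)]
  simp

lemma pex_prod {d a : ℝ} (hd : 0 < d) (ha : 0 ≤ a) (n : ℕ) (t : Fin (n + 1) → ℝ≥0)
    (ht : Monotone t) :
    Pm.real (⋂ i, Ev d (a * (t i : ℝ≥0)))
      = pex d a (t 0) * Pm.real (⋂ i : Fin n, Ev d (a * ((t i.succ - t 0 : ℝ≥0) : ℝ))) := by
  obtain ⟨N, hN⟩ := exists_nat_gt (a * (t 0 : ℝ) / d)
  have h1 : a * (t 0 : ℝ) < N * d := (div_lt_iff₀ hd).mp hN
  have h2 := regen hd N n (fun i => a * (t i : ℝ)) (fun i j hij => by
    simp only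
    exact mul_le_mul_of_nonneg_left (by exact_mod_cast ht hij) ha) (by positivity) h1
  have e : ∀ i : Fin n, a * ((t i.succ - t 0 : ℝ≥0) : ℝ) = a * (t i.succ : ℝ) - a * (t 0 : ℝ) := by
    intro i
    rw [NNReal.coe_sub (ht (Fin.zero_le _))]
    ring
  unfold pex Measure.real
  simp_rw [e]
  rw [h2, ENNReal.toReal_mul]

lemma pex_standard {d a : ℝ} (hd : 0 < d) (ha : 0 ≤ a) :
    Tendsto (pex d a) (𝓝[>] 0) (𝓝 1) := by
  have h1 : Tendsto (fun x : ℝ≥0 => Real.exp (-(a * (x : ℝ)))) (𝓝[>] 0) (𝓝 1) := by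
    have hc : Continuous (fun x : ℝ≥0 => Real.exp (-(a * (x : ℝ)))) := by fun_prop
    have := hc.tendsto 0
    simp only [NNReal.coe_zero, mul_zero, neg_zero, Real.exp_zero] at this
    exact this.mono_left nhdsWithin_le_nhds
  refine tendsto_of_tendsto_of_tendsto_of_le_of_le h1 tendsto_const_nhds (fun x => ?_)
    (fun x => measureReal_le_one)
  simp only
  unfold pex Measure.real
  rw [renew_one d _ (by positivity)]
  have h2 : (∫⁻ y in Ioc 0 (a * (x : ℝ)), ENNReal.ofReal (Real.exp (-y))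
      * Pm (Ev d (a * (x : ℝ) - y - d))) + ENNReal.ofReal (Real.exp (-(a * (x : ℝ)))) ≠ ⊤ := by
    rw [← renew_one d _ (by positivity)]
    exact measure_ne_top _ _
  have h3 := ENNReal.toReal_mono h2 (le_add_self (a := ENNReal.ofReal (Real.exp (-(a * (x : ℝ))))))
  rwa [ENNReal.toReal_ofReal (Real.exp_pos _).le] at h3

end Pool.Agent.MP5fed26
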