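import Mathlib
import Pool.Agent.Lib.MP_5fed26_pr.Discrete

/-!
# From p-functions to renewal sequences
-/

namespace Pool.Agent.MP5fed26

open MeasureTheory Set Finset
open scoped NNReal

section

variable {Ω : Type*} [MeasurableSpace Ω] {P : Measure Ω}
  {E : ℝ≥0 → Set Ω} {p : ℝ≥0 → ℝ}

/-- the defining product property -/
def ProdProp (P : Measure Ω) (E : ℝ≥0 → Set Ω) (p : ℝ≥0 → ℝ) : Prop :=
  ∀ (n : ℕ) (t : Fin (n + 1) → ℝ≥0), Monotone t →
    P.real (⋂ i, E (t i)) = p (t 0) * P.real (⋂ i : Fin n, E (t i.succ - t 0))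

lemma prod_last (hp : ∀ t, P.real (E t) = p t) (h : ProdProp P E p) (m : ℕ) :
    ∀ t : Fin (m + 1) → ℝ≥0, Monotone t → ∀ r : ℝ≥0,
      P.real ((⋂ i, E (t i)) ∩ E (t (Fin.last m) + r)) = P.real (⋂ i, E (t i)) * p r := by
  induction m with
  | zero =>
    intro t ht r
    have hmono : Monotone (Fin.snoc t (t (Fin.last 0) + r) : Fin 2 → ℝ≥0) := by
      intro i j hij
      fin_cases i <;> fin_cases j <;> simp [Fin.snoc] at hij ⊢
    have h1 := h 1 (Fin.snoc t (t (Fin.last 0) + r)) hmono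
    have e1 : (⋂ i, E ((Fin.snoc t (t (Fin.last 0) + r) : Fin 2 → ℝ≥0) i))
        = (⋂ i, E (t i)) ∩ E (t (Fin.last 0) + r) := by
      ext ω
      simp only [Set.mem_iInter, Set.mem_inter_iff]
      rw [Fin.forall_fin_succ']
      simp [Fin.snoc]
    have e2 : (⋂ i : Fin 1, E ((Fin.snoc t (t (Fin.last 0) + r) : Fin 2 → ℝ≥0) i.succ
        - (Fin.snoc t (t (Fin.last 0) + r) : Fin 2 → ℝ≥0) 0)) = E r := by
      ext ω
      simp [Fin.snoc]
    have e3 : (⋂ i, E (t i)) = E (t 0) := by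
      ext ω
      simp only [Set.mem_iInter]
      constructor
      · intro h; exact h 0
      · intro h i; fin_cases i; exact h
    rw [e1, e2, hp r] at h1
    rw [h1, e3, hp]
    simp [Fin.snoc]
  | succ m ih =>
    intro t ht r
    have hmono : Monotone (Fin.snoc t (t (Fin.last (m + 1)) + r) : Fin (m + 1 + 1 + 1) → ℝ≥0) := by
      intro i j hij
      induction j using Fin.lastCases with
      | last =>
        rw [Fin.snoc_last]
        induction i using Fin.lastCases with
        | last => rw [Fin.snoc_last]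
        | cast i => rw [Fin.snoc_castSucc]; exact (ht (Fin.le_last i)).trans le_self_add
      | cast j =>
        induction i using Fin.lastCases with
        | last => exact absurd (lt_of_lt_of_le (Fin.castSucc_lt_last j) hij) (lt_irrefl _)
        | cast i =>
          rw [Fin.snoc_castSucc, Fin.snoc_castSucc]
          exact ht (Fin.castSucc_le_castSucc_iff.mp hij)
    have h1 := h (m + 1 + 1) (Fin.snoc t (t (Fin.last (m + 1)) + r)) hmono
    have e0 : (Fin.snoc t (t (Fin.last (m + 1)) + r) : Fin (m + 1 + 1 + 1) → ℝ≥0) 0 = t 0 := by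
      rw [← Fin.castSucc_zero, Fin.snoc_castSucc]
    have e1 : (⋂ i, E ((Fin.snoc t (t (Fin.last (m + 1)) + r) : Fin (m + 1 + 1 + 1) → ℝ≥0) i))
        = (⋂ i, E (t i)) ∩ E (t (Fin.last (m + 1)) + r) := by
      ext ω
      simp only [Set.mem_iInter, Set.mem_inter_iff]
      rw [Fin.forall_fin_succ']
      simp only [Fin.snoc_castSucc, Fin.snoc_last]
    set s : Fin (m + 1) → ℝ≥0 := fun i => t i.succ - t 0 with hs
    have hsm : Monotone s := fun i j hij => tsub_le_tsub_right (ht (Fin.succ_le_succ_iff.mpr hij)) _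
    have e2 : (⋂ i : Fin (m + 1 + 1),
        E ((Fin.snoc t (t (Fin.last (m + 1)) + r) : Fin (m + 1 + 1 + 1) → ℝ≥0) i.succ
        - (Fin.snoc t (t (Fin.last (m + 1)) + r) : Fin (m + 1 + 1 + 1) → ℝ≥0) 0))
        = (⋂ i, E (s i)) ∩ E (s (Fin.last m) + r) := by
      ext ω
      rw [e0]
      simp only [Set.mem_iInter, Set.mem_inter_iff]
      rw [Fin.forall_fin_succ']
      have e3 : ∀ i : Fin (m + 1), (Fin.snoc t (t (Fin.last (m + 1)) + r) :
          Fin (m + 1 + 1 + 1) → ℝ≥0) (i.castSucc).succ = t i.succ := by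
        intro i
        rw [Fin.succ_castSucc, Fin.snoc_castSucc]
      have e4 : (Fin.snoc t (t (Fin.last (m + 1)) + r) :
          Fin (m + 1 + 1 + 1) → ℝ≥0) (Fin.last (m + 1)).succ = t (Fin.last (m + 1)) + r := by
        rw [Fin.succ_last, Fin.snoc_last]
      simp only [e3, e4]
      have e5 : t (Fin.last (m + 1)) + r - t 0 = s (Fin.last m) + r := by
        rw [hs]
        simp only
        rw [Fin.succ_last]
        exact tsub_add_eq_add_tsub (ht (Fin.zero_le _)) |>.symm
      rw [e5]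
    have h2 := h (m + 1) t ht
    rw [e1, e2, e0, ih s hsm r] at h1
    rw [h1, h2]
    ring

lemma prod_finset (hp : ∀ t, P.real (E t) = p t) (h : ProdProp P E p) (st : ℝ≥0)
    (S : Finset ℕ) (k n : ℕ) (hS : ∀ j ∈ S, j ≤ k) (hkn : k ≤ n) :
    P.real ((⋂ j ∈ S, E (j * st)) ∩ E (k * st) ∩ E (n * st))
      = P.real ((⋂ j ∈ S, E (j * st)) ∩ E (k * st)) * p ((n - k : ℕ) * st) := by
  classical
  set T : Finset ℕ := insert k S with hT
  obtain ⟨m, hm⟩ : ∃ m, T.card = m + 1 :=
    ⟨T.card - 1, by have : 0 < T.card := Finset.card_pos.mpr ⟨k, by simp [hT]⟩; omega⟩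
  set t : Fin (m + 1) → ℝ≥0 := fun i => ((T.orderEmbOfFin hm i : ℕ) : ℝ≥0) * st with ht
  have hmono : Monotone t := by
    intro i j hij
    have h1 : (T.orderEmbOfFin hm i : ℕ) ≤ T.orderEmbOfFin hm j :=
      (T.orderEmbOfFin hm).monotone hij
    exact mul_le_mul_left (by exact_mod_cast h1) st
  have hlast : (T.orderEmbOfFin hm (Fin.last m) : ℕ) = k := by
    have h1 := Finset.orderEmbOfFin_last hm (Nat.succ_pos m)
    have h2 : (⟨m + 1 - 1, by omega⟩ : Fin (m + 1)) = Fin.last m := by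
      ext; simp
    rw [h2] at h1
    rw [h1]
    apply le_antisymm
    · apply Finset.max'_le
      intro y hy
      rcases Finset.mem_insert.mp hy with h | h
      · exact h.le
      · exact hS y h
    · exact Finset.le_max' _ _ (by simp [hT])
  have e1 : (⋂ i, E (t i)) = (⋂ j ∈ S, E (j * st)) ∩ E (k * st) := by
    have hrange : Set.range (T.orderEmbOfFin hm) = (T : Set ℕ) := Finset.range_orderEmbOfFin T hm
    ext ω
    simp only [Set.mem_iInter, Set.mem_inter_iff, ht]
    constructor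
    · intro hω
      have h1 : ∀ j ∈ T, ω ∈ E ((j : ℝ≥0) * st) := by
        intro j hj
        have : j ∈ Set.range (T.orderEmbOfFin hm) := by rw [hrange]; exact_mod_cast hj
        obtain ⟨i, hi⟩ := this
        rw [← hi]; exact hω i
      exact ⟨fun j hj => h1 j (Finset.mem_insert_of_mem hj), h1 k (Finset.mem_insert_self k S)⟩
    · intro hω i
      have : T.orderEmbOfFin hm i ∈ T := Finset.orderEmbOfFin_mem T hm i
      rcases Finset.mem_insert.mp this with h | h
      · rw [h]; exact hω.2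
      · exact hω.1 _ h
  have h1 := prod_last hp h m t hmono (((n - k : ℕ) : ℝ≥0) * st)
  have e2 : t (Fin.last m) + ((n - k : ℕ) : ℝ≥0) * st = (n : ℝ≥0) * st := by
    simp only [ht, hlast]
    rw [← add_mul, ← Nat.cast_add]
    congr 2
    omega
  rw [e2, e1] at h1
  exact h1

lemma prod_compl [IsProbabilityMeasure P] (hE : ∀ t, MeasurableSet (E t))
    (hp : ∀ t, P.real (E t) = p t) (h : ProdProp P E p) (st : ℝ≥0)
    (k n : ℕ) (hkn : k ≤ n) (D : Finset ℕ) (hD : ∀ j ∈ D, j ≤ k) :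
    ∀ S : Finset ℕ, (∀ j ∈ S, j ≤ k) →
    P.real ((⋂ j ∈ S, E (j * st)) ∩ E (k * st) ∩ E (n * st) ∩ (⋂ j ∈ D, (E (j * st))ᶜ))
      = P.real ((⋂ j ∈ S, E (j * st)) ∩ E (k * st) ∩ (⋂ j ∈ D, (E (j * st))ᶜ))
        * p ((n - k : ℕ) * st) := by
  classical
  induction D using Finset.induction_on with
  | empty =>
    intro S hS
    simpa using prod_finset hp h st S k n hS hkn
  | insert d D hd ih =>
    intro S hS
    have ihD := ih (fun j hj => hD j (Finset.mem_insert_of_mem hj))
    have h1 := ihD S hS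
    have h2 := ihD (insert d S) (by
      intro j hj
      rcases Finset.mem_insert.mp hj with h | h
      · rw [h]; exact hD d (Finset.mem_insert_self d D)
      · exact hS j h)
    have e1 : (⋂ j ∈ insert d S, E ((j : ℝ≥0) * st)) = E (d * st) ∩ ⋂ j ∈ S, E (j * st) :=
      Finset.set_biInter_insert d S _
    have e2 : (⋂ j ∈ insert d D, (E ((j : ℝ≥0) * st))ᶜ)
        = (E (d * st))ᶜ ∩ ⋂ j ∈ D, (E (j * st))ᶜ :=
      Finset.set_biInter_insert d D _
    rw [e1] at h2
    rw [e2]
    have e3 := measureReal_inter_add_sdiff (μ := P)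
      (s := (⋂ j ∈ S, E (j * st)) ∩ E (k * st) ∩ E (n * st) ∩ (⋂ j ∈ D, (E (j * st))ᶜ))
      (hE (d * st))
    have e4 := measureReal_inter_add_sdiff (μ := P)
      (s := (⋂ j ∈ S, E (j * st)) ∩ E (k * st) ∩ (⋂ j ∈ D, (E (j * st))ᶜ))
      (hE (d * st))
    have s1 : (⋂ j ∈ S, E ((j : ℝ≥0) * st)) ∩ E (k * st) ∩ E (n * st)
        ∩ ((E (d * st))ᶜ ∩ ⋂ j ∈ D, (E (j * st))ᶜ)
        = ((⋂ j ∈ S, E (j * st)) ∩ E (k * st) ∩ E (n * st) ∩ (⋂ j ∈ D, (E (j * st))ᶜ))
          \ E (d * st) := by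
      ext ω; simp only [Set.mem_inter_iff, Set.mem_sdiff, Set.mem_compl_iff]; tauto
    have s2 : (⋂ j ∈ S, E ((j : ℝ≥0) * st)) ∩ E (k * st)
        ∩ ((E (d * st))ᶜ ∩ ⋂ j ∈ D, (E (j * st))ᶜ)
        = ((⋂ j ∈ S, E (j * st)) ∩ E (k * st) ∩ (⋂ j ∈ D, (E (j * st))ᶜ))
          \ E (d * st) := by
      ext ω; simp only [Set.mem_inter_iff, Set.mem_sdiff, Set.mem_compl_iff]; tauto
    have s3 : (E ((d : ℝ≥0) * st) ∩ ⋂ j ∈ S, E (j * st)) ∩ E (k * st) ∩ E (n * st)
        ∩ (⋂ j ∈ D, (E (j * st))ᶜ)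
        = ((⋂ j ∈ S, E (j * st)) ∩ E (k * st) ∩ E (n * st) ∩ (⋂ j ∈ D, (E (j * st))ᶜ))
          ∩ E (d * st) := by
      ext ω; simp only [Set.mem_inter_iff]; tauto
    have s4 : (E ((d : ℝ≥0) * st) ∩ ⋂ j ∈ S, E (j * st)) ∩ E (k * st)
        ∩ (⋂ j ∈ D, (E (j * st))ᶜ)
        = ((⋂ j ∈ S, E (j * st)) ∩ E (k * st) ∩ (⋂ j ∈ D, (E (j * st))ᶜ))
          ∩ E (d * st) := by
      ext ω; simp only [Set.mem_inter_iff]; tauto
    rw [s1, s2]
    rw [s3, s4] at h2
    linear_combination e3 - p ((n - k : ℕ) * st) * e4 + h1 - h2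

/-- first visit at index `k + 1` -/
def hit (E : ℝ≥0 → Set Ω) (st : ℝ≥0) (k : ℕ) : Set Ω :=
  E ((k + 1 : ℕ) * st) ∩ ⋂ j ∈ Finset.Icc 1 k, (E (j * st))ᶜ

lemma hit_meas (hE : ∀ t, MeasurableSet (E t)) (st : ℝ≥0) (k : ℕ) :
    MeasurableSet (hit E st k) :=
  (hE _).inter (Finset.measurableSet_biInter _ (fun _ _ => (hE _).compl))

omit [MeasurableSpace Ω] in
lemma hit_disj (st : ℝ≥0) : Pairwise (Function.onFun Disjoint (hit E st)) := by
  have key : ∀ i j : ℕ, i < j → Disjoint (hit E st i) (hit E st j) := by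
    intro i j hij
    rw [Set.disjoint_left]
    intro ω h1 h2
    have h3 := h2.2
    simp only [Set.mem_iInter, Set.mem_compl_iff] at h3
    exact h3 (i + 1) (Finset.mem_Icc.mpr ⟨by omega, by omega⟩) h1.1
  intro i j hij
  rcases lt_or_gt_of_ne hij with h | h
  · exact key i j h
  · exact (key j i h).symm

lemma hit_inter [IsProbabilityMeasure P] (hE : ∀ t, MeasurableSet (E t))
    (hp : ∀ t, P.real (E t) = p t) (h : ProdProp P E p) (st : ℝ≥0) {k n : ℕ} (hkn : k + 1 ≤ n) :
    P.real (hit E st k ∩ E (n * st)) = P.real (hit E st k) * p ((n - (k + 1) : ℕ) * st) := by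
  have h1 := prod_compl hE hp h st (k + 1) n hkn (Finset.Icc 1 k)
    (fun j hj => by rw [Finset.mem_Icc] at hj; omega) ∅ (by simp)
  simp only [Finset.notMem_empty, Set.iInter_of_empty, Set.iInter_univ, Set.univ_inter] at h1
  have s1 : hit E st k ∩ E (n * st) = E ((k + 1 : ℕ) * st) ∩ E (n * st)
      ∩ (⋂ j ∈ Finset.Icc 1 k, (E (j * st))ᶜ) := by
    unfold hit
    ext ω; simp only [Set.mem_inter_iff]; tauto
  rw [s1]
  exact h1

/-- the skeleton sequence, extended by zero -/
noncomputable def skel (p : ℝ≥0 → ℝ) (st : ℝ≥0) (z : ℤ) : ℝ :=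
  if z < 0 then 0 else p (z.toNat * st)

theorem ren_of_pfun [IsProbabilityMeasure P] (hE : ∀ t, MeasurableSet (E t))
    (hp : ∀ t, P.real (E t) = p t) (h : ProdProp P E p) (hp0 : p 0 = 1) (st : ℝ≥0) (N : ℕ) :
    Ren N (fun k => P.real (hit E st k)) (skel p st) where
  g_nonneg k := measureReal_nonneg
  sum_le := by
    rw [← measureReal_biUnion_finset (fun i _ j _ hij => hit_disj st hij)
      (fun k _ => hit_meas hE st k)]
    exact measureReal_le_one
  p_neg z hz := by simp [skel, hz]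
  p_zero := by simp [skel, hp0]
  p_rec z hz hzN := by
    rcases lt_or_ge z 0 with hneg | hpos
    · rw [skel, if_pos hneg]
      symm
      refine Finset.sum_eq_zero (fun k _ => ?_)
      rw [skel, if_pos (by omega), mul_zero]
    · obtain ⟨n, rfl⟩ := Int.eq_ofNat_of_zero_le hpos
      have hn1 : 1 ≤ n := by omega
      have hnN : n ≤ N := by omega
      have e1 : E ((n : ℝ≥0) * st) = ⋃ k ∈ Finset.range n, (hit E st k ∩ E (n * st)) := by
        ext ω
        simp only [Set.mem_iUnion, Set.mem_inter_iff]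
        constructor
        · intro hω
          classical
          have hex : ∃ k : ℕ, 1 ≤ k ∧ ω ∈ E ((k : ℝ≥0) * st) := ⟨n, hn1, hω⟩
          have hs := Nat.find_spec hex
          have hle : Nat.find hex ≤ n := Nat.find_min' hex ⟨hn1, hω⟩
          refine ⟨Nat.find hex - 1, Finset.mem_range.mpr (by omega), ⟨?_, ?_⟩, hω⟩
          · rw [show Nat.find hex - 1 + 1 = Nat.find hex by omega]
            exact hs.2
          · simp only [Set.mem_iInter, Set.mem_compl_iff]
            intro j hj hjω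
            rw [Finset.mem_Icc] at hj
            exact Nat.find_min hex (show j < Nat.find hex by omega) ⟨hj.1, hjω⟩
        · rintro ⟨k, _, _, hω⟩
          exact hω
      have e2 : p ((n : ℝ≥0) * st) = ∑ k ∈ Finset.range n, P.real (hit E st k ∩ E (n * st)) := by
        rw [← hp]
        conv_lhs => rw [e1]
        rw [measureReal_biUnion_finset]
        · intro i _ j _ hij
          exact (hit_disj st hij).mono Set.inter_subset_left Set.inter_subset_left
        · intro k _
          exact (hit_meas hE st k).inter (hE _)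
      have e3 : skel p st (n : ℤ) = p ((n : ℝ≥0) * st) := by
        simp [skel]
      rw [e3, e2]
      rw [← Finset.sum_subset (Finset.range_mono hnN)]
      · refine Finset.sum_congr rfl (fun k hk => ?_)
        have hk' : k < n := Finset.mem_range.mp hk
        rw [hit_inter hE hp h st (by omega), skel, if_neg (by omega)]
        congr 4
        omega
      · intro k _ hk
        rw [Finset.mem_range] at hk
        rw [skel, if_pos (by omega), mul_zero]

end

end Pool.Agent.MP5fed26
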