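import Mathlib
import Pool.Agent.Lib.MP_5fed26_pr.Skeleton

/-!
# The two-point inequality for standard p-functions
-/

namespace Pool.Agent.MP5fed26

open MeasureTheory Set Filter Topology
open scoped NNReal

variable {Ω : Type*} [MeasurableSpace Ω] {P : Measure Ω}
  {E : ℝ≥0 → Set Ω} {p : ℝ≥0 → ℝ}

lemma super_mul [IsProbabilityMeasure P]
    (hp : ∀ t, P.real (E t) = p t) (h : ProdProp P E p) (x y : ℝ≥0) :
    p x * p y ≤ p (x + y) := by
  have h1 := prod_last hp h 0 (fun _ => x) monotone_const y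
  simp only [Set.iInter_const] at h1
  rw [hp x] at h1
  rw [← h1, ← hp (x + y)]
  exact measureReal_mono Set.inter_subset_right

lemma p_mem [IsProbabilityMeasure P]
    (hp : ∀ t, P.real (E t) = p t) (x : ℝ≥0) : 0 ≤ p x ∧ p x ≤ 1 := by
  rw [← hp x]
  exact ⟨measureReal_nonneg, measureReal_le_one⟩

theorem two_point [IsProbabilityMeasure P] (hE : ∀ t, MeasurableSet (E t))
    (hp : ∀ t, P.real (E t) = p t) (h : ProdProp P E p) (hp0 : p 0 = 1)
    (hstd : Tendsto p (𝓝[>] 0) (𝓝 1)) {s t : ℝ≥0} (hst : s ≤ t) :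
    p t ≤ Real.exp (p s - 1) := by
  rcases eq_or_lt_of_le (zero_le (a := t)) with ht | ht
  · have hs : s = 0 := le_antisymm (hst.trans ht.symm.le) (zero_le (a := s))
    rw [← ht, hs, hp0]; simp
  have hcont : Tendsto p (𝓝 0) (𝓝 1) := by
    have h1 : Tendsto p (𝓝[≠] 0) (𝓝 1) := by
      have : 𝓝[≠] (0 : ℝ≥0) = 𝓝[>] 0 := by
        congr 1
        ext x; simp [pos_iff_ne_zero]
      rw [this]; exact hstd
    have h2 : ContinuousAt p 0 := by
      rw [continuousAt_iff_punctured_nhds, hp0]; exact h1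
    have h3 := h2.tendsto
    rwa [hp0] at h3
  set u : ℕ → ℝ≥0 := fun n => t / ((n : ℝ≥0) + 1) with hu
  have hu0 : Tendsto u atTop (𝓝 0) := by
    have h1 : Tendsto (fun n : ℕ => t / (n : ℝ≥0)) atTop (𝓝 0) :=
      tendsto_const_div_atTop_nhds_zero_nat t
    have h2 := h1.comp (tendsto_add_atTop_nat 1)
    refine h2.congr (fun n => ?_)
    simp [hu]
  have hupos : ∀ n, 0 < u n := fun n => by
    simp only [hu]; positivity
  set a : ℕ → ℕ := fun n => ⌊s / u n⌋₊ with ha
  have ha1 : ∀ n, (a n : ℝ≥0) * u n ≤ s := by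
    intro n
    have h1 : (a n : ℝ≥0) ≤ s / u n := Nat.floor_le (zero_le (a := s / u n))
    exact (le_div_iff₀ (hupos n)).mp h1
  have ha2 : ∀ n, s < ((a n : ℝ≥0) + 1) * u n := by
    intro n
    have h1 : s / u n < (a n : ℝ≥0) + 1 := Nat.lt_floor_add_one _
    exact (div_lt_iff₀ (hupos n)).mp h1
  have ha3 : ∀ n, a n ≤ n + 1 := by
    intro n
    have h1 : (a n : ℝ≥0) * u n ≤ ((n : ℝ≥0) + 1) * u n := by
      refine (ha1 n).trans (hst.trans ?_)
      simp only [hu]
      rw [mul_div_cancel₀]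
      positivity
    have h2 : (a n : ℝ≥0) ≤ (n : ℝ≥0) + 1 := le_of_mul_le_mul_right h1 (hupos n)
    exact_mod_cast h2
  set d : ℕ → ℝ≥0 := fun n => s - (a n : ℝ≥0) * u n with hd
  have hd0 : Tendsto d atTop (𝓝 0) := by
    refine tendsto_of_tendsto_of_tendsto_of_le_of_le tendsto_const_nhds hu0
      (fun n => zero_le (a := d n)) (fun n => ?_)
    simp only [hd]
    rw [tsub_le_iff_right]
    have := (ha2 n).le
    rw [add_mul, one_mul] at this
    rwa [add_comm]
  have key : ∀ n, p (u n) * p t ≤ Real.exp (p s - p (d n)) := by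
    intro n
    have hR := ren_of_pfun hE hp h hp0 (u n) (n + 1)
    have h1 := hR.main (Nat.succ_pos n) (s := (a n : ℤ)) (u := ((n + 1 - a n : ℕ) : ℤ))
      (by positivity) (by positivity) (by have := ha3 n; push_cast; omega)
    have e1 : (a n : ℤ) + ((n + 1 - a n : ℕ) : ℤ) = ((n + 1 : ℕ) : ℤ) := by
      have := ha3 n; omega
    have e2 : skel p (u n) ((n + 1 : ℕ) : ℤ) = p t := by
      have h2 : ((n + 1 : ℕ) : ℝ≥0) * u n = t := by
        simp only [hu]
        push_cast
        rw [mul_div_cancel₀]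
        positivity
      unfold skel
      rw [if_neg (by omega), Int.toNat_natCast, h2]
    have e3 : skel p (u n) (a n : ℤ) = p ((a n : ℝ≥0) * u n) := by
      unfold skel
      rw [if_neg (by omega), Int.toNat_natCast]
    have e4 : P.real (hit E (u n) 0) = p (u n) := by
      rw [← hp]
      unfold hit
      simp
    rw [e1, e2, e3, e4] at h1
    refine h1.trans (Real.exp_le_exp.mpr ?_)
    have h3 := super_mul hp h ((a n : ℝ≥0) * u n) (d n)
    have h4 : (a n : ℝ≥0) * u n + d n = s := add_tsub_cancel_of_le (ha1 n)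
    rw [h4] at h3
    have h5 := p_mem hp (d n)
    have h6 := p_mem hp ((a n : ℝ≥0) * u n)
    nlinarith
  have l1 : Tendsto (fun n => p (u n) * p t) atTop (𝓝 (1 * p t)) :=
    (hcont.comp hu0).mul_const _
  have l2 : Tendsto (fun n => Real.exp (p s - p (d n))) atTop (𝓝 (Real.exp (p s - 1))) :=
    (Real.continuous_exp.tendsto _).comp ((hcont.comp hd0).const_sub (p s))
  have := le_of_tendsto_of_tendsto' l1 l2 key
  rwa [one_mul] at this

end Pool.Agent.MP5fed26
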